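import Mathlib
import Pool.Agent.KS6_49.L8.Helper941.Zeta.Cmp

set_option autoImplicit false

namespace Pool.Agent.Helper941.Dim

open Pool.Agent.Helper941 Pool.Agent.Helper941.IsoProb

/-- A structure with universe the set of natural numbers for the (computable) language with
the binary relation symbols `R_0, R_1, R_2, …`: `A i x y` says that `R_i(x, y)` holds. -/
abbrev Str := ℕ → ℕ → ℕ → Prop

/-- `A` is computable: its atomic diagram is computable. -/
def IsComp (A : Str) : Prop :=
  ComputablePred fun q : ℕ × ℕ × ℕ => A q.1 q.2.1 q.2.2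

/-- `f` is an isomorphism from `A` onto `B`. -/
def IsIso (A B : Str) (f : ℕ ≃ ℕ) : Prop :=
  ∀ i x y, A i x y ↔ B i (f x) (f y)

/-- `B` is a computable copy of `A`. -/
def IsCopy (A B : Str) : Prop :=
  IsComp B ∧ ∃ f : ℕ ≃ ℕ, IsIso A B f

/-- `A` and `B` are computably isomorphic. -/
def CompIso (A B : Str) : Prop :=
  ∃ f : ℕ ≃ ℕ, IsIso A B f ∧ Computable f

/-- the inverse of a computable permutation of the natural numbers is computable -/
theorem computable_symm {f : ℕ ≃ ℕ} (hf : Computable f) : Computable f.symm := by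
  have h1 : ComputablePred fun p : ℕ × ℕ => f p.2 = p.1 :=
    Zeta.p_eq (hf.comp Computable.snd) Computable.fst
  have h2 := Zeta.c_least (P := fun a n : ℕ => f n = a) h1 fun a => ⟨f.symm a, by simp⟩
  refine h2.of_eq fun a => ?_
  have : {n | f n = a} = {f.symm a} := by
    ext n
    simp [Equiv.eq_symm_apply]
  rw [this, csInf_singleton]

theorem CompIso.refl (A : Str) : CompIso A A :=
  ⟨Equiv.refl ℕ, fun _ _ _ => Iff.rfl, Computable.id⟩

theorem CompIso.symm {A B : Str} (h : CompIso A B) : CompIso B A := by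
  obtain ⟨f, hf, hc⟩ := h
  exact ⟨f.symm, fun i x y => by rw [hf, f.apply_symm_apply, f.apply_symm_apply],
    computable_symm hc⟩

theorem CompIso.trans {A B C : Str} (h : CompIso A B) (h' : CompIso B C) : CompIso A C := by
  obtain ⟨f, hf, hc⟩ := h
  obtain ⟨g, hg, hd⟩ := h'
  exact ⟨f.trans g, fun i x y => (hf i x y).trans (hg i _ _), hd.comp hc⟩

/-- computable isomorphism as an equivalence relation on the computable copies of `A` -/
def copySetoid (A : Str) : Setoid {B : Str // IsCopy A B} where
  r B C := CompIso B.1 C.1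
  iseqv := ⟨fun B => CompIso.refl B.1, fun h => h.symm, fun h h' => h.trans h'⟩

/-- The computable dimension of `A`: the number of computable copies of `A` up to
computable isomorphism. -/
noncomputable def compDim (A : Str) : Cardinal :=
  Cardinal.mk (Quotient (copySetoid A))

/-- The (lightface) `Σ⁰_n` predicates on a coded type: level `0` consists of the computable
predicates, and a predicate is at level `n + 1` when it has the form `∃ y, ¬ Q (a, y)` with
`Q` at level `n`. -/
def Sig : ℕ → ∀ {α : Type} [Primcodable α], (α → Prop) → Prop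
  | 0, _, _, P => ComputablePred P
  | n + 1, α, _, P => ∃ Q : α × ℕ → Prop, Sig n Q ∧ ∀ a, P a ↔ ∃ y, ¬ Q (a, y)

/-- The `Δ⁰_n` predicates: the predicate and its negation are `Σ⁰_n`. -/
def Del (n : ℕ) {α : Type} [Primcodable α] (P : α → Prop) : Prop :=
  Sig n P ∧ Sig n fun a => ¬ P a

/-- `f` is a `Δ⁰_n` function: its graph is a `Δ⁰_n` set. -/
def DeltaFun (n : ℕ) (f : ℕ → ℕ) : Prop :=
  Del n fun p : ℕ × ℕ => f p.1 = p.2

/-- `A` is `Δ⁰_n`-autostable: any two computable copies of `A` are isomorphic by a `Δ⁰_n`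
isomorphism. -/
def DeltaAutostable (n : ℕ) (A : Str) : Prop :=
  ∀ B C : Str, IsCopy A B → IsCopy A C → ∃ f : ℕ ≃ ℕ, IsIso B C f ∧ DeltaFun n f

end Pool.Agent.Helper941.Dim
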