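import Mathlib
import Pool.Agent.KS6_49.L8.Helper941.Xor
import Pool.Agent.KS6_49.L8.Helper941.Dim.Defs

set_option autoImplicit false

namespace Pool.Agent.Helper941.Dim

open Encodable Denumerable Nat.Partrec Pool.Agent.Helper941 Pool.Agent.Helper941.IsoProb
open Pool.Agent.Helper941.Zeta

/-- parity of the number of bits of `X` below `n` -/
def parN (X : ℕ) : ℕ → Bool
  | 0 => false
  | n + 1 => (parN X n) ^^ (X.testBit n)

/-- parity of the number of bits of `X` -/
def par (X : ℕ) : Bool := parN X X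

theorem parN_stable {X n m : ℕ} (h : X ≤ n) (h' : n ≤ m) : parN X m = parN X n := by
  induction m, h' using Nat.le_induction with
  | base => rfl
  | succ m hm ih =>
    show (parN X m ^^ X.testBit m) = _
    rw [ih, testBit_large (by omega : X ≤ m)]
    simp

theorem parN_eq {X n : ℕ} (h : X ≤ n) : parN X n = par X := parN_stable (le_refl X) h

theorem parN_xor (X Y n : ℕ) : parN (X ^^^ Y) n = ((parN X n) ^^ (parN Y n)) := by
  induction n with
  | zero => rfl
  | succ n ih =>
    show (parN (X ^^^ Y) n ^^ (X ^^^ Y).testBit n) = _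
    rw [ih, Nat.testBit_xor]
    show _ = ((parN X n ^^ X.testBit n) ^^ (parN Y n ^^ Y.testBit n))
    cases parN X n <;> cases parN Y n <;> cases X.testBit n <;> cases Y.testBit n <;> rfl

theorem par_xor (X Y : ℕ) : par (X ^^^ Y) = ((par X) ^^ (par Y)) := by
  rw [← parN_eq (show X ^^^ Y ≤ (X ^^^ Y) + X + Y by omega), parN_xor,
    parN_eq (show X ≤ (X ^^^ Y) + X + Y by omega), parN_eq (show Y ≤ (X ^^^ Y) + X + Y by omega)]

theorem par_zero : par 0 = false := rfl

theorem parN_two_pow (u n : ℕ) : parN (2 ^ u) n = decide (u < n) := by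
  induction n with
  | zero => simp [parN]
  | succ n ih =>
    show (parN (2 ^ u) n ^^ (2 ^ u).testBit n) = _
    rw [ih, Nat.testBit_two_pow]
    by_cases h1 : u < n
    · have h2 : ¬ u = n := by omega
      have h3 : u < n + 1 := by omega
      simp [h1, h2, h3]
    · by_cases h2 : u = n
      · subst h2; simp
      · have h3 : ¬ u < n + 1 := by omega
        simp [h1, h2, h3]

theorem par_two_pow (u : ℕ) : par (2 ^ u) = true := by
  show parN (2 ^ u) (2 ^ u) = true
  rw [parN_two_pow]
  simp [Nat.lt_two_pow_self]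

theorem parN_of_zero {X n : ℕ} (h : ∀ u < n, X.testBit u = false) : parN X n = false := by
  induction n with
  | zero => rfl
  | succ n ih =>
    show (parN X n ^^ X.testBit n) = false
    rw [ih fun u hu => h u (by omega), h n (by omega)]
    rfl

theorem exists_of_par {X : ℕ} (h : par X = true) : ∃ u, X.testBit u = true := by
  by_contra hc
  push Not at hc
  have : par X = false := parN_of_zero fun u _ => by
    have := hc u
    simpa using this
  rw [this] at h
  exact Bool.noConfusion h

theorem eq_zero_of {X : ℕ} (h : ∀ u, X.testBit u = false) : X = 0 :=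
  Nat.eq_of_testBit_eq fun u => by rw [h u, Nat.zero_testBit]

theorem eq_two_pow_of {X w : ℕ} (h1 : X.testBit w = true)
    (h : ∀ u, X.testBit u = true → u = w) : X = 2 ^ w := by
  refine Nat.eq_of_testBit_eq fun u => ?_
  rw [Nat.testBit_two_pow]
  by_cases hu : w = u
  · subst hu; simp [h1]
  · have : X.testBit u = false := by
      by_contra hc
      simp only [Bool.not_eq_false] at hc
      exact hu (h u hc).symm
    simp [this, hu]

theorem testBit_lt {X u : ℕ} (h : X.testBit u = true) : u < X := by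
  by_contra hc
  rw [testBit_large (by omega)] at h
  exact Bool.noConfusion h

/-! ### computability of the bit operations -/

variable {α : Type} [Primcodable α]

theorem c_pow {f : α → ℕ} (hf : Computable f) : Computable fun a => 2 ^ f a :=
  (primrec_pow.to_comp).comp (Computable.const 2) hf

theorem c_xor {f g : α → ℕ} (hf : Computable f) (hg : Computable g) :
    Computable fun a => f a ^^^ g a := (primrec_xor.to_comp).comp hf hg

theorem c_testBit {f g : α → ℕ} (hf : Computable f) (hg : Computable g) :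
    Computable fun a => (f a).testBit (g a) := (primrec_testBit.to_comp).comp hf hg

theorem c_bxor {f g : α → Bool} (hf : Computable f) (hg : Computable g) :
    Computable fun a => ((f a) ^^ (g a)) :=
  ((Primrec.dom_bool₂ xor).to_comp).comp hf hg

theorem c_par {f : α → ℕ} (hf : Computable f) : Computable fun a => par (f a) := by
  have h : Computable fun X : ℕ => (Nat.rec false (fun n b => (b ^^ X.testBit n)) X : Bool) := by
    refine Computable.nat_rec (f := fun X : ℕ => X) (g := fun _ => false)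
      (h := fun (X : ℕ) (q : ℕ × Bool) => (q.2 ^^ X.testBit q.1)) Computable.id
      (Computable.const _) ?_
    exact c_bxor (c_snd (c_snd c_id)) (c_testBit (c_fst c_id) (c_fst (c_snd c_id)))
  have h2 : Computable par := by
    refine h.of_eq fun X => ?_
    have key : ∀ n : ℕ, (Nat.rec false (fun n b => (b ^^ X.testBit n)) n : Bool) = parN X n := by
      intro n
      induction n with
      | zero => rfl
      | succ n ih => show (_ ^^ _) = _; rw [ih]; rfl
    exact key X
  exact h2.comp hf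

theorem p_testBit {f g : α → ℕ} (hf : Computable f) (hg : Computable g) :
    ComputablePred fun a => (f a).testBit (g a) = true := p_of_bool (c_testBit hf hg)

/-! ### the structures -/

/-- `p = (v, X)` is a code of an element of sort `v`: all bits of `X` are children of `v` -/
def Valid (pa : ℕ → ℕ) (p : ℕ) : Prop :=
  ∀ u, p.unpair.2.testBit u = true → 1 ≤ u ∧ pa u = p.unpair.1

/-- The relations on codes: relation `0` is the root predicate, `(1, v)` is the sort `v`,
`(2, u)` toggles the coordinate `u` in the sort of the parent of `u`, and `(3, u)` connects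
the coordinate `u` with the parity in the sort `u`. -/
def Rel (pa : ℕ → ℕ) (b : Bool) (i p q : ℕ) : Prop :=
  (i = 0 ∧ p = q ∧ p.unpair.1 = 0 ∧ par p.unpair.2 = b) ∨
  (i.unpair.1 = 1 ∧ p = q ∧ p.unpair.1 = i.unpair.2) ∨
  (i.unpair.1 = 2 ∧ 1 ≤ i.unpair.2 ∧ p.unpair.1 = pa i.unpair.2 ∧ q.unpair.1 = pa i.unpair.2 ∧
    q.unpair.2 = p.unpair.2 ^^^ 2 ^ i.unpair.2) ∨
  (i.unpair.1 = 3 ∧ 1 ≤ i.unpair.2 ∧ p.unpair.1 = pa i.unpair.2 ∧ q.unpair.1 = i.unpair.2 ∧
    p.unpair.2.testBit i.unpair.2 = par q.unpair.2)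

theorem unpair_zero' : Nat.unpair 0 = (0, 0) := by decide

theorem pair_ne_zero {r v : ℕ} (h : 1 ≤ r) : Nat.pair r v ≠ 0 := by
  intro h0
  have := Nat.left_le_pair r v
  omega

theorem rel_zero {pa : ℕ → ℕ} {b : Bool} {p q : ℕ} :
    Rel pa b 0 p q ↔ p = q ∧ p.unpair.1 = 0 ∧ par p.unpair.2 = b := by
  unfold Rel
  rw [unpair_zero']
  simp

theorem rel_one {pa : ℕ → ℕ} {b : Bool} {v p q : ℕ} :
    Rel pa b (Nat.pair 1 v) p q ↔ p = q ∧ p.unpair.1 = v := by
  unfold Rel
  simp [Nat.unpair_pair, pair_ne_zero (le_refl 1)]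

theorem rel_two {pa : ℕ → ℕ} {b : Bool} {u p q : ℕ} :
    Rel pa b (Nat.pair 2 u) p q ↔ 1 ≤ u ∧ p.unpair.1 = pa u ∧ q.unpair.1 = pa u ∧
      q.unpair.2 = p.unpair.2 ^^^ 2 ^ u := by
  unfold Rel
  simp [Nat.unpair_pair, pair_ne_zero (show 1 ≤ 2 by omega)]

theorem rel_three {pa : ℕ → ℕ} {b : Bool} {u p q : ℕ} :
    Rel pa b (Nat.pair 3 u) p q ↔ 1 ≤ u ∧ p.unpair.1 = pa u ∧ q.unpair.1 = u ∧
      p.unpair.2.testBit u = par q.unpair.2 := by
  unfold Rel
  simp [Nat.unpair_pair, pair_ne_zero (show 1 ≤ 3 by omega)]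

theorem valid_base (pa : ℕ → ℕ) (v : ℕ) : Valid pa (Nat.pair v 0) := by
  intro u hu
  rw [Nat.unpair_pair] at hu
  simp at hu

theorem valid_infinite (pa : ℕ → ℕ) : {p | Valid pa p}.Infinite := by
  refine Set.infinite_of_injective_forall_mem (f := fun v : ℕ => Nat.pair v 0) ?_ ?_
  · intro v w h
    exact (Nat.pair_eq_pair.1 h).1
  · intro v
    exact valid_base pa v

theorem p_valid {pa : ℕ → ℕ} (hpa : Computable pa) : ComputablePred (Valid pa) := by
  have h : ComputablePred fun p : ℕ => ∀ u < p.unpair.2, p.unpair.2.testBit u = true →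
      1 ≤ u ∧ pa u = p.unpair.1 := by
    refine p_ball (c_up2 c_id) (p_imp (p_testBit (c_up2 (c_fst c_id)) (c_snd c_id))
      (p_and (p_le (c_const 1) (c_snd c_id)) (p_eq (hpa.comp (c_snd c_id))
        (c_up1 (c_fst c_id)))))
  refine h.of_eq fun p => ⟨fun h u hu => h u (testBit_lt hu) hu, fun h u _ hu => h u hu⟩

theorem p_rel {pa : ℕ → ℕ} (hpa : Computable pa) (b : Bool) :
    ComputablePred fun q : ℕ × ℕ × ℕ => Rel pa b q.1 q.2.1 q.2.2 := by
  have i : Computable fun q : ℕ × ℕ × ℕ => q.1 := c_fst c_id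
  have p : Computable fun q : ℕ × ℕ × ℕ => q.2.1 := c_fst (c_snd c_id)
  have q : Computable fun q : ℕ × ℕ × ℕ => q.2.2 := c_snd (c_snd c_id)
  unfold Rel
  refine p_or (p_and (p_eq i (c_const 0)) (p_and (p_eq p q) (p_and (p_eq (c_up1 p) (c_const 0))
    (p_eqb (c_par (c_up2 p)) (c_const b))))) (p_or (p_and (p_eq (c_up1 i) (c_const 1))
    (p_and (p_eq p q) (p_eq (c_up1 p) (c_up2 i)))) (p_or (p_and (p_eq (c_up1 i) (c_const 2))
    (p_and (p_le (c_const 1) (c_up2 i)) (p_and (p_eq (c_up1 p) (hpa.comp (c_up2 i)))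
    (p_and (p_eq (c_up1 q) (hpa.comp (c_up2 i))) (p_eq (c_up2 q)
      (c_xor (c_up2 p) (c_pow (c_up2 i)))))))) (p_and (p_eq (c_up1 i) (c_const 3))
    (p_and (p_le (c_const 1) (c_up2 i)) (p_and (p_eq (c_up1 p) (hpa.comp (c_up2 i)))
    (p_and (p_eq (c_up1 q) (c_up2 i)) (p_eqb (c_testBit (c_up2 p) (c_up2 i))
      (c_par (c_up2 q)))))))))

end Pool.Agent.Helper941.Dim
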