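import Mathlib
import Pool.Agent.KS6_49.L8.Helper941.Dim.Base

set_option autoImplicit false

namespace Pool.Agent.Helper941.Dim

open Encodable Denumerable Nat.Partrec Pool.Agent.Helper941 Pool.Agent.Helper941.IsoProb
open Pool.Agent.Helper941.Zeta

open Classical in
/-- the number of valid codes below `p` -/
noncomputable def idx (pa : ℕ → ℕ) (p : ℕ) : ℕ := Nat.count (Valid pa) p

/-- the `n`-th valid code -/
noncomputable def el (pa : ℕ → ℕ) (n : ℕ) : ℕ := Nat.nth (Valid pa) n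

theorem el_valid (pa : ℕ → ℕ) (n : ℕ) : Valid pa (el pa n) :=
  Nat.nth_mem_of_infinite (valid_infinite pa) n

theorem idx_el (pa : ℕ → ℕ) (n : ℕ) : idx pa (el pa n) = n := by
  classical
  unfold idx el
  convert Nat.count_nth_of_infinite (p := Valid pa) (valid_infinite pa) n

theorem el_idx {pa : ℕ → ℕ} {p : ℕ} (h : Valid pa p) : el pa (idx pa p) = p := by
  classical
  unfold idx el
  convert Nat.nth_count (p := Valid pa) h

theorem c_idx {pa : ℕ → ℕ} (hpa : Computable pa) : Computable (idx pa) := by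
  classical
  have h : Computable fun p : ℕ =>
      (Nat.rec 0 (fun n b => b + (if Valid pa n then 1 else 0)) p : ℕ) := by
    refine Computable.nat_rec (f := fun p : ℕ => p) (g := fun _ => 0)
      (h := fun (_ : ℕ) (q : ℕ × ℕ) => (q.2 + (if Valid pa q.1 then 1 else 0) : ℕ)) Computable.id
      (Computable.const _) ?_
    refine c_add (c_snd (c_snd c_id)) (c_ite ?_ (c_const 1) (c_const 0))
    exact computablePred_comp (p_valid hpa) (c_fst (c_snd c_id))
  refine h.of_eq fun p => ?_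
  unfold idx
  induction p with
  | zero => rfl
  | succ p ih =>
    rw [Nat.count_succ, ← ih]

theorem c_el {pa : ℕ → ℕ} (hpa : Computable pa) : Computable (el pa) := by
  have h := c_least (P := fun n m : ℕ => Valid pa m ∧ idx pa m = n)
    (p_and (computablePred_comp (p_valid hpa) (c_snd c_id))
      (p_eq ((c_idx hpa).comp (c_snd c_id)) (c_fst c_id)))
    (fun n => ⟨el pa n, el_valid pa n, idx_el pa n⟩)
  refine h.of_eq fun n => ?_
  have : {m | Valid pa m ∧ idx pa m = n} = {el pa n} := by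
    ext m
    rw [Set.mem_singleton_iff]
    show Valid pa m ∧ idx pa m = n ↔ _
    constructor
    · rintro ⟨h1, h2⟩
      rw [← h2, el_idx h1]
    · rintro rfl
      exact ⟨el_valid pa n, idx_el pa n⟩
  rw [this, csInf_singleton]

/-- the structure on the natural numbers -/
def As (pa : ℕ → ℕ) (b : Bool) : Str := fun i m n => Rel pa b i (el pa m) (el pa n)

theorem as_comp {pa : ℕ → ℕ} (hpa : Computable pa) (b : Bool) : IsComp (As pa b) :=
  computablePred_comp (p_rel hpa b) (c_pair (c_fst c_id)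
    (c_pair ((c_el hpa).comp (c_fst (c_snd c_id))) ((c_el hpa).comp (c_snd (c_snd c_id)))))

/-- an isomorphism given on codes -/
structure CIso (pa : ℕ → ℕ) (b : Bool) (B : Str) (G : ℕ → ℕ) : Prop where
  rel : ∀ i p q, Valid pa p → Valid pa q → (Rel pa b i p q ↔ B i (G p) (G q))
  inj : ∀ p q, Valid pa p → Valid pa q → G p = G q → p = q
  surj : ∀ z, ∃ p, Valid pa p ∧ G p = z

theorem CIso.of_iso {pa : ℕ → ℕ} {b : Bool} {B : Str} {f : ℕ ≃ ℕ} (h : IsIso (As pa b) B f) :
    CIso pa b B fun p => f (idx pa p) where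
  rel := fun i p q hp hq => by
    rw [← h]
    show _ ↔ Rel pa b i (el pa (idx pa p)) (el pa (idx pa q))
    rw [el_idx hp, el_idx hq]
  inj := fun p q hp hq e => by
    have := f.injective e
    rw [← el_idx hp, ← el_idx hq, this]
  surj := fun z => ⟨el pa (f.symm z), el_valid pa _, by simp [idx_el]⟩

theorem CIso.toIso {pa : ℕ → ℕ} {b : Bool} {B : Str} {G : ℕ → ℕ} (h : CIso pa b B G) :
    ∃ f : ℕ ≃ ℕ, IsIso (As pa b) B f ∧ ∀ n, f n = G (el pa n) := by
  refine ⟨Equiv.ofBijective (fun n => G (el pa n)) ⟨?_, ?_⟩, ?_, ?_⟩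
  · intro m n e
    have := h.inj _ _ (el_valid pa m) (el_valid pa n) e
    rw [← idx_el pa m, this, idx_el]
  · intro z
    obtain ⟨p, hp, e⟩ := h.surj z
    exact ⟨idx pa p, by show G (el pa (idx pa p)) = z; rw [el_idx hp, e]⟩
  · intro i x y
    exact h.rel i _ _ (el_valid pa x) (el_valid pa y)
  · intro n
    rfl

/-- a family of coordinate sets satisfying the parity condition -/
structure Flow (pa : ℕ → ℕ) (t : ℕ → ℕ) : Prop where
  child : ∀ v u, (t v).testBit u = true → 1 ≤ u ∧ pa u = v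
  par : ∀ u, 1 ≤ u → (t (pa u)).testBit u = par (t u)

/-- translation by a flow -/
def sh (t : ℕ → ℕ) (p : ℕ) : ℕ := Nat.pair p.unpair.1 (p.unpair.2 ^^^ t p.unpair.1)

theorem sh_fst (t : ℕ → ℕ) (p : ℕ) : (sh t p).unpair.1 = p.unpair.1 := by
  unfold sh; rw [Nat.unpair_pair]

theorem sh_snd (t : ℕ → ℕ) (p : ℕ) : (sh t p).unpair.2 = p.unpair.2 ^^^ t p.unpair.1 := by
  unfold sh; rw [Nat.unpair_pair]

theorem sh_sh (t : ℕ → ℕ) (p : ℕ) : sh t (sh t p) = p := by
  have : sh t (sh t p) = Nat.pair p.unpair.1 p.unpair.2 := by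
    show Nat.pair (sh t p).unpair.1 ((sh t p).unpair.2 ^^^ t (sh t p).unpair.1) = _
    rw [sh_fst, sh_snd, Nat.xor_assoc, Nat.xor_self, Nat.xor_zero]
  rw [this, Nat.pair_unpair]

theorem sh_valid {pa t : ℕ → ℕ} (h : Flow pa t) {p : ℕ} (hp : Valid pa p) :
    Valid pa (sh t p) := by
  intro u hu
  rw [sh_snd, Nat.testBit_xor] at hu
  rw [sh_fst]
  by_cases h1 : p.unpair.2.testBit u = true
  · exact hp u h1
  · simp only [Bool.not_eq_true] at h1
    rw [h1] at hu
    exact h.child _ _ (by simpa using hu)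

theorem unpair_inj {p q : ℕ} (h1 : p.unpair.1 = q.unpair.1) (h2 : p.unpair.2 = q.unpair.2) :
    p = q := by
  rw [← Nat.pair_unpair p, ← Nat.pair_unpair q, h1, h2]

theorem sh_rel {pa t : ℕ → ℕ} (h : Flow pa t) (b : Bool) (i p q : ℕ) :
    Rel pa b i p q ↔ Rel pa ((par (t 0)) ^^ b) i (sh t p) (sh t q) := by
  have hinj : sh t p = sh t q ↔ p = q := by
    constructor
    · intro e
      rw [← sh_sh t p, e, sh_sh]
    · rintro rfl; rfl
  unfold Rel
  refine or_congr ?_ (or_congr ?_ (or_congr ?_ ?_))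
  · refine and_congr Iff.rfl ?_
    rw [hinj, sh_fst, sh_snd]
    refine and_congr Iff.rfl ?_
    constructor
    · rintro ⟨h1, h2⟩
      refine ⟨h1, ?_⟩
      rw [h1, par_xor, h2, Bool.xor_comm]
    · rintro ⟨h1, h2⟩
      refine ⟨h1, ?_⟩
      rw [h1, par_xor, Bool.xor_comm] at h2
      exact Bool.xor_left_inj.1 (by rw [Bool.xor_comm, h2, Bool.xor_comm])
  · rw [hinj, sh_fst]
  · rw [sh_fst, sh_fst, sh_snd, sh_snd]
    constructor
    · rintro ⟨h1, h2, h3, h4, h5⟩
      refine ⟨h1, h2, h3, h4, ?_⟩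
      rw [h5, h3, h4, Nat.xor_assoc, Nat.xor_assoc, Nat.xor_comm (2 ^ _)]
    · rintro ⟨h1, h2, h3, h4, h5⟩
      refine ⟨h1, h2, h3, h4, ?_⟩
      rw [h3, h4] at h5
      rw [Nat.xor_assoc, Nat.xor_comm (t _) (2 ^ _), ← Nat.xor_assoc] at h5
      exact Nat.xor_left_injective h5
  · rw [sh_fst, sh_fst, sh_snd, sh_snd]
    constructor
    · rintro ⟨h1, h2, h3, h4, h5⟩
      refine ⟨h1, h2, h3, h4, ?_⟩
      rw [Nat.testBit_xor, par_xor, h5, h3, h4, h.par _ h2]
    · rintro ⟨h1, h2, h3, h4, h5⟩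
      refine ⟨h1, h2, h3, h4, ?_⟩
      rw [Nat.testBit_xor, par_xor, h3, h4, h.par _ h2] at h5
      exact Bool.xor_left_inj.1 h5

end Pool.Agent.Helper941.Dim
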