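import Mathlib
import Pool.Agent.KS6_49.L8.Helper941.Dim.Iso

set_option autoImplicit false

namespace Pool.Agent.Helper941.Dim

open Encodable Denumerable Nat.Partrec Pool.Agent.Helper941 Pool.Agent.Helper941.IsoProb
open Pool.Agent.Helper941.Zeta

/-! ### nodes of the tree of finite sequences -/

/-- the sequence coded by the node `j`, in reversed order -/
def seq (j : ℕ) : List ℕ := ofNat (List ℕ) j

def len (j : ℕ) : ℕ := (seq j).length

def dig (j i : ℕ) : ℕ := ent j (len j - 1 - i)

def prn (j : ℕ) : ℕ := encode (seq j).tail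

theorem seq_zero : seq 0 = [] := by
  unfold seq
  have : encode ([] : List ℕ) = 0 := rfl
  rw [← this, ofNat_encode]

theorem encode_seq (j : ℕ) : encode (seq j) = j := by
  unfold seq
  rw [encode_ofNat]

theorem seq_pos {j : ℕ} (h : 1 ≤ j) : ∃ a l, seq j = a :: l := by
  cases hs : seq j with
  | nil =>
    have h1 := encode_seq j
    rw [hs] at h1
    have h2 : encode ([] : List ℕ) = 0 := rfl
    omega
  | cons a l => exact ⟨a, l, rfl⟩

theorem seq_prn (j : ℕ) : seq (prn j) = (seq j).tail := by
  unfold prn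
  show ofNat (List ℕ) _ = _
  rw [ofNat_encode]

theorem prn_lt {j : ℕ} (h : 1 ≤ j) : prn j < j := by
  obtain ⟨a, l, hs⟩ := seq_pos h
  unfold prn
  conv_rhs => rw [← encode_seq j]
  rw [hs, List.tail_cons, encode_list_cons]
  have := Nat.right_le_pair (encode a) (encode l)
  omega

theorem len_prn {j : ℕ} (h : 1 ≤ j) : len (prn j) + 1 = len j := by
  obtain ⟨a, l, hs⟩ := seq_pos h
  unfold len
  rw [seq_prn, hs]
  rfl

theorem dig_prn {j i : ℕ} (h : 1 ≤ j) (hi : i < len (prn j)) : dig (prn j) i = dig j i := by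
  obtain ⟨a, l, hs⟩ := seq_pos h
  have h1 := len_prn h
  have h2 : len (prn j) = l.length := by
    unfold len
    rw [seq_prn, hs]
    rfl
  have hl : seq (prn j) = l := by rw [seq_prn, hs]; rfl
  unfold dig ent
  show ((seq (prn j))[len (prn j) - 1 - i]?).getD 0 = ((seq j)[len j - 1 - i]?).getD 0
  rw [hl, hs]
  have h3 : len j - 1 - i = (len (prn j) - 1 - i) + 1 := by omega
  rw [h3, List.getElem?_cons_succ]

theorem c_seq : Computable seq := Computable.ofNat (List ℕ)

theorem c_lenj {α : Type} [Primcodable α] {f : α → ℕ} (hf : Computable f) :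
    Computable fun a => len (f a) := Computable.list_length.comp (c_seq.comp hf)

theorem c_dig {α : Type} [Primcodable α] {f g : α → ℕ} (hf : Computable f)
    (hg : Computable g) : Computable fun a => dig (f a) (g a) :=
  c_ent hf (c_sub (c_sub (c_lenj hf) (c_const 1)) hg)

theorem c_prn : Computable prn :=
  Computable.encode.comp (Primrec.list_tail.to_comp.comp c_seq)

/-- the node of length `i` on the path `f` -/
def nod (f : ℕ → ℕ) (i : ℕ) : ℕ := encode ((List.range i).map f).reverse

theorem seq_nod (f : ℕ → ℕ) (i : ℕ) : seq (nod f i) = ((List.range i).map f).reverse := by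
  unfold nod
  show ofNat (List ℕ) _ = _
  rw [ofNat_encode]

theorem nod_zero (f : ℕ → ℕ) : nod f 0 = 0 := rfl

theorem len_nod (f : ℕ → ℕ) (i : ℕ) : len (nod f i) = i := by
  unfold len
  rw [seq_nod]
  simp

theorem seq_nod_succ (f : ℕ → ℕ) (i : ℕ) : seq (nod f (i + 1)) = f i :: seq (nod f i) := by
  rw [seq_nod, seq_nod, List.range_succ]
  simp

theorem prn_nod (f : ℕ → ℕ) (i : ℕ) : prn (nod f (i + 1)) = nod f i := by
  unfold prn
  rw [seq_nod_succ, List.tail_cons, encode_seq]

theorem nod_pos (f : ℕ → ℕ) (i : ℕ) : 1 ≤ nod f (i + 1) := by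
  by_contra hc
  have h1 : nod f (i + 1) = 0 := by omega
  have h2 := len_nod f (i + 1)
  rw [h1] at h2
  unfold len at h2
  rw [seq_zero] at h2
  simp at h2

theorem dig_nod (f : ℕ → ℕ) {m i : ℕ} (h : i < m) : dig (nod f m) i = f i := by
  induction m with
  | zero => omega
  | succ m ih =>
    by_cases h1 : i < m
    · rw [← dig_prn (nod_pos f m) (by rw [prn_nod, len_nod]; exact h1), prn_nod]
      exact ih h1
    · have : i = m := by omega
      subst this
      unfold dig ent
      show ((seq (nod f (i + 1)))[len (nod f (i + 1)) - 1 - i]?).getD 0 = f i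
      rw [len_nod, seq_nod_succ]
      simp

theorem nod_ext {f : ℕ → ℕ} {j : ℕ} (h : ∀ i < len j, dig j i = f i) : j = nod f (len j) := by
  have key : ∀ n j, len j = n → (∀ i < len j, dig j i = f i) → j = nod f (len j) := by
    intro n
    induction n with
    | zero =>
      intro j hj _
      have h1 : seq j = [] := List.length_eq_zero_iff.1 hj
      rw [hj, nod_zero, ← encode_seq j, h1]
      rfl
    | succ n ih =>
      intro j hj hd
      have hj1 : 1 ≤ j := by
        by_contra hc
        have : j = 0 := by omega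
        rw [this] at hj
        unfold len at hj
        rw [seq_zero] at hj
        simp at hj
      have h1 := len_prn hj1
      have h2 := ih (prn j) (by omega) fun i hi => by
        rw [dig_prn hj1 hi]
        exact hd i (by omega)
      have h3 : seq j = seq (nod f (len j)) := by
        rw [hj, seq_nod_succ]
        obtain ⟨a, l, hs⟩ := seq_pos hj1
        have h4 : len (prn j) = n := by omega
        rw [← h4, ← h2, seq_prn, hs, List.tail_cons]
        congr 1
        have h5 := hd n (by omega)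
        unfold dig ent at h5
        have h6 : ((seq j)[len j - 1 - n]?).getD 0 = f n := h5
        rw [hs, hj] at h6
        simp at h6
        rw [h6, h4]
      rw [← encode_seq j, h3, encode_seq, len_nod]
  exact key _ j rfl h

/-! ### the tree with a unique path -/

/-- the value of a level predicate, computed from the previous level -/
def tst (g : ℕ → ℕ) (k q y : ℕ) : Prop :=
  (k = 0 → haltsIn (ofNat Code q.unpair.1) q.unpair.2 y = true) ∧
  (1 ≤ k → g (Nat.pair (k - 1) (Nat.pair q.unpair.1 (Nat.pair q.unpair.2 y))) = 0)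

def kn (l k q y : ℕ) : Prop :=
  k = 0 ∨ Nat.pair (k - 1) (Nat.pair q.unpair.1 (Nat.pair q.unpair.2 y)) < l

/-- local correctness of the sequence `g` at position `i` -/
def Loc (K : ℕ) (g : ℕ → ℕ) (l i : ℕ) : Prop :=
  (K < i.unpair.1 → g i = 0) ∧ (i.unpair.1 ≤ K → (∀ y < g i, y + 1 = g i →
    kn l i.unpair.1 i.unpair.2 y → tst g i.unpair.1 i.unpair.2 y) ∧
    ∀ y < l + g i, (y + 1 < g i ∨ g i = 0) → kn l i.unpair.1 i.unpair.2 y →
      ¬ tst g i.unpair.1 i.unpair.2 y)

def TT (K j : ℕ) : Prop := ∀ i < len j, Loc K (dig j) (len j) i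

theorem tst_congr {g g' : ℕ → ℕ} {l k q y : ℕ} (h : ∀ i < l, g i = g' i) (hk : kn l k q y) :
    tst g k q y ↔ tst g' k q y := by
  unfold tst
  refine and_congr Iff.rfl ?_
  refine forall_congr' fun h1 => ?_
  rcases hk with h2 | h2
  · omega
  · rw [h _ h2]

theorem Loc.mono {K : ℕ} {g g' : ℕ → ℕ} {l l' i : ℕ} (h : Loc K g l i) (hl : l' ≤ l)
    (hg : ∀ i < l', g i = g' i) (hi : i < l') : Loc K g' l' i := by
  obtain ⟨h1, h2⟩ := h
  have hk : ∀ {k q y}, kn l' k q y → kn l k q y := by
    intro k q y h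
    rcases h with h | h
    · exact Or.inl h
    · exact Or.inr (by omega)
  rw [hg i hi] at h1 h2
  refine ⟨h1, fun hK => ⟨fun y hy h3 h4 => ?_, fun y hy h3 h4 => ?_⟩⟩
  · exact (tst_congr hg h4).1 ((h2 hK).1 y hy h3 (hk h4))
  · exact fun hc => (h2 hK).2 y (by omega) h3 (hk h4) ((tst_congr hg h4).2 hc)

theorem tt_up (K : ℕ) {j : ℕ} (hj : 1 ≤ j) (h : TT K j) : TT K (prn j) := by
  intro i hi
  have h1 := len_prn hj
  exact (h i (by omega)).mono (by omega) (fun i hi => (dig_prn hj hi).symm) hi

theorem tt_zero (K : ℕ) : TT K 0 := by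
  intro i hi
  unfold len at hi
  rw [seq_zero] at hi
  simp at hi

theorem th_TT (K : ℕ) : TH (TT K) prn where
  zero := tt_zero K
  up := fun _ hj h => tt_up K hj h
  lt := fun _ hj => prn_lt hj

theorem p_tst {α : Type} [Primcodable α] {j k q y : α → ℕ} (hj : Computable j)
    (hk : Computable k) (hq : Computable q) (hy : Computable y) :
    ComputablePred fun a => tst (dig (j a)) (k a) (q a) (y a) := by
  unfold tst
  have h : Computable fun q : ℕ × ℕ × ℕ => haltsIn (ofNat Code q.1) q.2.1 q.2.2 :=
    (primrec_haltsIn ((Primrec.ofNat Code).comp Primrec.fst) (Primrec.fst.comp Primrec.snd)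
      (Primrec.snd.comp Primrec.snd)).to_comp
  have h1 : ComputablePred fun a => haltsIn (ofNat Code (q a).unpair.1) (q a).unpair.2 (y a) =
      true := p_of_bool (h.comp (c_pair (c_up1 hq) (c_pair (c_up2 hq) hy)))
  have h2 : Computable fun a => Nat.pair (k a - 1) (Nat.pair (q a).unpair.1
      (Nat.pair (q a).unpair.2 (y a))) :=
    c_npair (c_sub hk (c_const 1)) (c_npair (c_up1 hq) (c_npair (c_up2 hq) hy))
  exact p_and (p_imp (p_eq hk (c_const 0)) h1) (p_imp (p_le (c_const 1) hk)
    (p_eq (c_dig hj h2) (c_const 0)))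

theorem p_kn {α : Type} [Primcodable α] {l k q y : α → ℕ} (hl : Computable l)
    (hk : Computable k) (hq : Computable q) (hy : Computable y) :
    ComputablePred fun a => kn (l a) (k a) (q a) (y a) := by
  unfold kn
  have h2 : Computable fun a => Nat.pair (k a - 1) (Nat.pair (q a).unpair.1
      (Nat.pair (q a).unpair.2 (y a))) :=
    c_npair (c_sub hk (c_const 1)) (c_npair (c_up1 hq) (c_npair (c_up2 hq) hy))
  exact p_or (p_eq hk (c_const 0)) (p_lt h2 hl)

theorem p_loc1 {α : Type} [Primcodable α] {j i : α → ℕ} (hj : Computable j)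
    (hi : Computable i) : ComputablePred fun a => ∀ y < dig (j a) (i a),
      y + 1 = dig (j a) (i a) → kn (len (j a)) (i a).unpair.1 (i a).unpair.2 y →
        tst (dig (j a)) (i a).unpair.1 (i a).unpair.2 y := by
  have hi1 : Computable fun p : α × ℕ => (i p.1).unpair.1 := c_up1 (c_l hi)
  have hi2 : Computable fun p : α × ℕ => (i p.1).unpair.2 := c_up2 (c_l hi)
  have h1 : ComputablePred fun p : α × ℕ => p.2 + 1 = dig (j p.1) (i p.1) :=
    p_eq (c_succ c_r) (c_dig (c_l hj) (c_l hi))
  have h2 := p_kn (α := α × ℕ) (c_lenj (c_l hj)) hi1 hi2 c_r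
  have h3 := p_tst (α := α × ℕ) (c_l hj) hi1 hi2 c_r
  exact p_ball (c_dig hj hi) (p_imp h1 (p_imp h2 h3))

theorem p_loc2 {α : Type} [Primcodable α] {j i : α → ℕ} (hj : Computable j)
    (hi : Computable i) : ComputablePred fun a => ∀ y < len (j a) + dig (j a) (i a),
      (y + 1 < dig (j a) (i a) ∨ dig (j a) (i a) = 0) →
        kn (len (j a)) (i a).unpair.1 (i a).unpair.2 y →
        ¬ tst (dig (j a)) (i a).unpair.1 (i a).unpair.2 y := by
  have hi1 : Computable fun p : α × ℕ => (i p.1).unpair.1 := c_up1 (c_l hi)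
  have hi2 : Computable fun p : α × ℕ => (i p.1).unpair.2 := c_up2 (c_l hi)
  have hd : Computable fun p : α × ℕ => dig (j p.1) (i p.1) := c_dig (c_l hj) (c_l hi)
  have h1 : ComputablePred fun p : α × ℕ =>
      (p.2 + 1 < dig (j p.1) (i p.1) ∨ dig (j p.1) (i p.1) = 0) :=
    p_or (p_lt (c_succ c_r) hd) (p_eq hd (c_const 0))
  have h2 := p_kn (α := α × ℕ) (c_lenj (c_l hj)) hi1 hi2 c_r
  have h3 := p_tst (α := α × ℕ) (c_l hj) hi1 hi2 c_r
  exact p_ball (c_add (c_lenj hj) (c_dig hj hi)) (p_imp h1 (p_imp h2 (p_not h3)))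

theorem p_TT (K : ℕ) : ComputablePred (TT K) := by
  unfold TT Loc
  have hj : Computable fun p : ℕ × ℕ => p.1 := c_fst c_id
  have hi : Computable fun p : ℕ × ℕ => p.2 := c_snd c_id
  have h1 := p_loc1 hj hi
  have h2 := p_loc2 hj hi
  exact p_ball (c_lenj c_id) (p_and (p_imp (p_lt (c_const K) (c_up1 hi))
    (p_eq (c_dig hj hi) (c_const 0))) (p_imp (p_le (c_up1 hi) (c_const K)) (p_and h1 h2)))

/-! ### the path -/

open Classical in
noncomputable def LS (P : ℕ → Prop) : ℕ := if ∃ y, P y then sInf {y | P y} + 1 else 0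

theorem LS_iff {P : ℕ → Prop} {z : ℕ} : LS P = z ↔
    (∀ y < z, y + 1 = z → P y) ∧ ∀ y, (y + 1 < z ∨ z = 0) → ¬ P y := by
  classical
  unfold LS
  by_cases h : ∃ y, P y
  · rw [if_pos h]
    have hm : P (sInf {y | P y}) := Nat.sInf_mem (s := {y | P y}) h
    constructor
    · rintro rfl
      refine ⟨fun y _ h2 => ?_, fun y h1 h2 => ?_⟩
      · have : y = sInf {y | P y} := by omega
        rw [this]; exact hm
      · have := Nat.sInf_le (s := {y | P y}) h2
        omega
    · rintro ⟨h1, h2⟩
      have hz : z ≠ 0 := fun hz => h2 _ (Or.inr hz) hm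
      have h3 := h1 (z - 1) (by omega) (by omega)
      have h4 := Nat.sInf_le (s := {y | P y}) h3
      by_contra hc
      exact h2 (sInf {y | P y}) (Or.inl (by omega)) hm
  · rw [if_neg h]
    push Not at h
    constructor
    · rintro rfl
      exact ⟨fun y hy => by omega, fun y _ => h y⟩
    · rintro ⟨h1, _⟩
      by_contra hc
      exact h (z - 1) (h1 (z - 1) (by omega) (by omega))

theorem LS_ne {P : ℕ → Prop} : LS P ≠ 0 ↔ ∃ y, P y := by
  classical
  unfold LS
  by_cases h : ∃ y, P y
  · rw [if_pos h]; simp [h]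
  · rw [if_neg h]; simp [h]

theorem LS_congr {P Q : ℕ → Prop} (h : ∀ y, P y ↔ Q y) : LS P = LS Q := by
  have : P = Q := funext fun y => propext (h y)
  rw [this]

/-- the witness functions -/
noncomputable def fk : ℕ → ℕ → ℕ
  | 0, q => LS fun y => haltsIn (ofNat Code q.unpair.1) q.unpair.2 y = true
  | k + 1, q => LS fun y => fk k (Nat.pair q.unpair.1 (Nat.pair q.unpair.2 y)) = 0

theorem fk_un (k e x : ℕ) : fk k (Nat.pair e x) ≠ 0 ↔ Un k (e, x) := by
  induction k generalizing x with
  | zero =>
    show LS _ ≠ 0 ↔ (Code.eval (ofNat Code e) x).Dom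
    rw [LS_ne, haltsIn_iff]
    simp
  | succ k ih =>
    show LS _ ≠ 0 ↔ ∃ y, ¬ Un k (e, Nat.pair x y)
    rw [LS_ne]
    simp only [Nat.unpair_pair]
    refine exists_congr fun y => ?_
    rw [← ih]
    simp

/-- the path -/
noncomputable def pth (K i : ℕ) : ℕ := if i.unpair.1 ≤ K then fk i.unpair.1 i.unpair.2 else 0

theorem pth_pair {K k q : ℕ} (h : k ≤ K) : pth K (Nat.pair k q) = fk k q := by
  unfold pth
  rw [Nat.unpair_pair, if_pos h]

theorem fk_tst {K k : ℕ} (hk : k ≤ K) (q : ℕ) : fk k q = LS (tst (pth K) k q) := by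
  cases k with
  | zero =>
    show LS _ = _
    refine LS_congr fun y => ?_
    unfold tst
    simp
  | succ k =>
    show LS _ = _
    refine LS_congr fun y => ?_
    unfold tst
    rw [Nat.add_sub_cancel, pth_pair (by omega)]
    simp

theorem pth_loc (K l i : ℕ) : Loc K (pth K) l i := by
  unfold Loc
  constructor
  · intro h
    unfold pth
    rw [if_neg (by omega)]
  · intro h
    have h1 : pth K i = fk i.unpair.1 i.unpair.2 := by unfold pth; rw [if_pos h]
    rw [fk_tst h] at h1
    obtain ⟨h2, h3⟩ := LS_iff.1 h1.symm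
    exact ⟨fun y hy h4 _ => h2 y hy h4, fun y _ h4 _ => h3 y h4⟩

theorem pth_T (K i : ℕ) : TT K (nod (pth K) i) := by
  intro m hm
  rw [len_nod] at hm ⊢
  exact (pth_loc K i m).mono (le_refl i) (fun x hx => (dig_nod (pth K) hx).symm) hm

/-- uniqueness of the path -/
theorem pth_unique {K : ℕ} {g : ℕ → ℕ} (h : ∀ l, ∀ i < l, Loc K g l i) (i : ℕ) :
    g i = pth K i := by
  have key : ∀ k q, g (Nat.pair k q) = pth K (Nat.pair k q) := by
    intro k
    induction k using Nat.strong_induction_on with
    | _ k ih =>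
      intro q
      by_cases hk : k ≤ K
      · rw [pth_pair hk, fk_tst hk, eq_comm, LS_iff]
        have htst : ∀ y, tst (pth K) k q y ↔ tst g k q y := by
          intro y
          unfold tst
          refine and_congr Iff.rfl ?_
          refine forall_congr' fun h1 => ?_
          rw [ih (k - 1) (by omega)]
        have hloc : ∀ y, ∃ l, Nat.pair k q < l ∧ y < l ∧ kn l k q y := by
          intro y
          refine ⟨Nat.pair k q + y + 1 +
            Nat.pair (k - 1) (Nat.pair q.unpair.1 (Nat.pair q.unpair.2 y)), by omega, by omega,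
            Or.inr (by omega)⟩
        refine ⟨fun y hy h1 => ?_, fun y h1 => ?_⟩
        · obtain ⟨l, h2, h3, h4⟩ := hloc y
          have h5 := (h l _ h2).2
          rw [Nat.unpair_pair] at h5
          exact (htst y).2 ((h5 hk).1 y hy h1 h4)
        · obtain ⟨l, h2, h3, h4⟩ := hloc y
          have h5 := (h l _ h2).2
          rw [Nat.unpair_pair] at h5
          exact fun hc => (h5 hk).2 y (by omega) h1 h4 ((htst y).1 hc)
      · have h1 := (h (Nat.pair k q + 1) (Nat.pair k q) (by omega)).1
        rw [Nat.unpair_pair] at h1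
        rw [h1 (by show K < k; omega)]
        unfold pth
        rw [Nat.unpair_pair, if_neg hk]
  have := key i.unpair.1 i.unpair.2
  rwa [Nat.pair_unpair] at this

/-- an infinite path of labels is the true path -/
theorem path_unique {K : ℕ} {l : ℕ → ℕ} (h0 : l 0 = 0) (h1 : ∀ k, 1 ≤ l (k + 1))
    (h2 : ∀ k, prn (l (k + 1)) = l k) (h3 : ∀ k, TT K (l k)) (k : ℕ) :
    l k = nod (pth K) k := by
  have hlen : ∀ k, len (l k) = k := by
    intro k
    induction k with
    | zero => rw [h0]; unfold len; rw [seq_zero]; rfl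
    | succ k ih => rw [← len_prn (h1 k), h2, ih]
  have hd : ∀ m i, i < m → dig (l m) i = dig (l (i + 1)) i := by
    intro m
    induction m with
    | zero => intro i hi; omega
    | succ m ih =>
      intro i hi
      by_cases h4 : i = m
      · rw [h4]
      · have h5 : i < len (prn (l (m + 1))) := by rw [h2, hlen]; omega
        rw [← dig_prn (h1 m) h5, h2]
        exact ih i (by omega)
  have hg : ∀ i, dig (l (i + 1)) i = pth K i := by
    refine pth_unique (g := fun i => dig (l (i + 1)) i) fun m i hi => ?_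
    have h4 := h3 m i (by rw [hlen]; exact hi)
    rw [hlen] at h4
    exact h4.mono (le_refl m) (fun x hx => hd m x hx) hi
  have := nod_ext (f := pth K) (j := l k) fun i hi => by
    rw [hlen] at hi
    rw [hd k i hi, hg]
  rw [hlen] at this
  exact this

end Pool.Agent.Helper941.Dim
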