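import Mathlib
import Pool.Agent.KS6_49.L8.Helper941.Dim.Tree

set_option autoImplicit false
set_option maxHeartbeats 400000

namespace Pool.Agent.Helper941.Dim

open Encodable Denumerable Nat.Partrec Pool.Agent.Helper941 Pool.Agent.Helper941.IsoProb
open Pool.Agent.Helper941.Zeta

/-! ### the complexity of the path -/

theorem Pi0.ball {α : Type} [Primcodable α] {n : ℕ} {P : α × ℕ → Prop} (h : Pi0 n P)
    {f : α → ℕ} (hf : Computable f) : Pi0 n fun a => ∀ y < f a, P (a, y) :=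
  Sigma0.of_iff (Sigma0.bex (P := fun p => ¬ P p) h hf) fun a => by push Not; rfl

theorem Pi0.bex {α : Type} [Primcodable α] {n : ℕ} {P : α × ℕ → Prop} (h : Pi0 n P)
    {f : α → ℕ} (hf : Computable f) : Pi0 n fun a => ∃ y < f a, P (a, y) :=
  Sigma0.of_iff (Sigma0.ball (P := fun p => ¬ P p) h hf) fun a => by push Not; rfl

/-- the graph of `LS` -/
theorem pi_LS {α : Type} [Primcodable α] {n : ℕ} {P : α × ℕ → Prop} (h : Pi0 (n + 1) P)
    (h' : Sigma0 (n + 1) P) : Pi0 (n + 1) fun p : α × ℕ => LS (fun y => P (p.1, y)) = p.2 := by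
  have h1 : Pi0 (n + 1) fun p : α × ℕ => ∀ y < p.2, y + 1 = p.2 → P (p.1, y) := by
    refine Pi0.ball (P := fun q : (α × ℕ) × ℕ => q.2 + 1 = q.1.2 → P (q.1.1, q.2)) ?_
      Computable.snd
    refine Pi0.of_iff (Pi0.or (ComputablePred.pi (p_not (p_eq (c_succ (c_snd c_id))
      (c_snd (c_fst c_id))))) (h.comp (f := fun q : (α × ℕ) × ℕ => (q.1.1, q.2))
        (c_pair (c_fst (c_fst c_id)) (c_snd c_id)))) fun q => ?_
    exact imp_iff_not_or
  have h2 : Pi0 (n + 1) fun p : α × ℕ => ∀ y, (y + 1 < p.2 ∨ p.2 = 0) → ¬ P (p.1, y) := by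
    refine Pi0.all (P := fun q : (α × ℕ) × ℕ => (q.2 + 1 < q.1.2 ∨ q.1.2 = 0) →
      ¬ P (q.1.1, q.2)) ?_
    refine Pi0.of_iff (Pi0.or (ComputablePred.pi (p_not (p_or (p_lt (c_succ (c_snd c_id))
      (c_snd (c_fst c_id))) (p_eq (c_snd (c_fst c_id)) (c_const 0)))))
      (Sigma0.not (h'.comp (f := fun q : (α × ℕ) × ℕ => (q.1.1, q.2))
        (c_pair (c_fst (c_fst c_id)) (c_snd c_id))))) fun q => ?_
    exact imp_iff_not_or
  refine Pi0.of_iff (Pi0.and h1 h2) fun p => ?_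
  exact LS_iff

theorem fk_zero (q : ℕ) :
    fk 0 q = LS fun y => haltsIn (ofNat Code q.unpair.1) q.unpair.2 y = true := rfl

theorem fk_succ (k q : ℕ) :
    fk (k + 1) q = LS fun y => fk k (Nat.pair q.unpair.1 (Nat.pair q.unpair.2 y)) = 0 := rfl

theorem c_halts {α : Type} [Primcodable α] {a b c : α → ℕ} (ha : Computable a)
    (hb : Computable b) (hc : Computable c) :
    Computable fun x => haltsIn (ofNat Code (a x)) (b x) (c x) := by
  have h : Computable fun q : ℕ × ℕ × ℕ => haltsIn (ofNat Code q.1) q.2.1 q.2.2 :=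
    (primrec_haltsIn ((Primrec.ofNat Code).comp Primrec.fst) (Primrec.fst.comp Primrec.snd)
      (Primrec.snd.comp Primrec.snd)).to_comp
  exact h.comp (c_pair ha (c_pair hb hc))

theorem pi_fk (k : ℕ) : Pi0 (k + 1) fun p : ℕ × ℕ => fk k p.1 = p.2 := by
  induction k with
  | zero =>
    have h : ComputablePred fun p : ℕ × ℕ =>
        haltsIn (ofNat Code p.1.unpair.1) p.1.unpair.2 p.2 = true := by
      have h' := c_halts (α := ℕ × ℕ) (a := fun p => p.1.unpair.1) (b := fun p => p.1.unpair.2)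
        (c := fun p => p.2) (c_up1 (c_fst c_id)) (c_up2 (c_fst c_id)) (c_snd c_id)
      exact p_of_bool h'
    have h1 : Pi0 (0 + 1) fun p : ℕ × ℕ =>
        haltsIn (ofNat Code p.1.unpair.1) p.1.unpair.2 p.2 = true := ComputablePred.pi h
    have h2 : Sigma0 (0 + 1) fun p : ℕ × ℕ =>
        haltsIn (ofNat Code p.1.unpair.1) p.1.unpair.2 p.2 = true := ComputablePred.sigma h
    refine Pi0.of_iff (pi_LS h1 h2) fun p => ?_
    rw [fk_zero]
  | succ k ih =>
    have h : Pi0 (k + 1) fun p : ℕ × ℕ =>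
        fk k (Nat.pair p.1.unpair.1 (Nat.pair p.1.unpair.2 p.2)) = 0 :=
      Pi0.comp ih (f := fun p : ℕ × ℕ =>
        (Nat.pair p.1.unpair.1 (Nat.pair p.1.unpair.2 p.2), 0))
        (c_pair (c_npair (c_up1 (c_fst c_id)) (c_npair (c_up2 (c_fst c_id)) (c_snd c_id)))
          (c_const 0))
    have h1 : Pi0 (k + 1 + 1) fun p : ℕ × ℕ =>
        fk k (Nat.pair p.1.unpair.1 (Nat.pair p.1.unpair.2 p.2)) = 0 := Pi0.succ h
    have h2 : Sigma0 (k + 1 + 1) fun p : ℕ × ℕ =>
        fk k (Nat.pair p.1.unpair.1 (Nat.pair p.1.unpair.2 p.2)) = 0 := Pi0.toSigma h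
    refine Pi0.of_iff (pi_LS h1 h2) fun p => ?_
    rw [fk_succ]

theorem Pi0.lift {α : Type} [Primcodable α] {n m : ℕ} {P : α → Prop} (h : Pi0 n P)
    (hm : n ≤ m) : Pi0 m P := by
  induction m, hm using Nat.le_induction with
  | base => exact h
  | succ m _ ih => exact ih.succ

theorem Sigma0.lift {α : Type} [Primcodable α] {n m : ℕ} {P : α → Prop} (h : Sigma0 n P)
    (hm : n ≤ m) : Sigma0 m P := by
  induction m, hm using Nat.le_induction with
  | base => exact h
  | succ m _ ih => exact ih.succ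

theorem pi_pth (K : ℕ) : Pi0 (K + 1) fun p : ℕ × ℕ => pth K p.1 = p.2 := by
  have h1 : Pi0 (K + 1) fun p : ℕ × ℕ => ∀ k ∈ List.range (K + 1),
      p.1.unpair.1 = k → fk k p.1.unpair.2 = p.2 := by
    refine Sigma0.of_iff (sigma0_list_ex (fun k (p : ℕ × ℕ) =>
      ¬ (p.1.unpair.1 = k → fk k p.1.unpair.2 = p.2)) (List.range (K + 1)) fun k hk => ?_)
      fun p => by push Not; rfl
    have hk' : k < K + 1 := List.mem_range.1 hk
    have h3 : Pi0 (k + 1) fun p : ℕ × ℕ => fk k p.1.unpair.2 = p.2 :=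
      Pi0.comp (pi_fk k) (f := fun p : ℕ × ℕ => (p.1.unpair.2, p.2))
        (c_pair (c_up2 (c_fst c_id)) (c_snd c_id))
    have h2 : Pi0 (K + 1) fun p : ℕ × ℕ => fk k p.1.unpair.2 = p.2 :=
      Pi0.lift h3 (by omega)
    exact Pi0.of_iff (Pi0.or (ComputablePred.pi (p_not (p_eq (c_up1 (c_fst c_id))
      (c_const k)))) h2) fun p => imp_iff_not_or
  have h2 : Pi0 (K + 1) fun p : ℕ × ℕ => K < p.1.unpair.1 → p.2 = 0 :=
    ComputablePred.pi (p_imp (p_lt (c_const K) (c_up1 (c_fst c_id)))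
      (p_eq (c_snd c_id) (c_const 0)))
  refine Pi0.of_iff (Pi0.and h1 h2) fun p => ?_
  unfold pth
  by_cases h : p.1.unpair.1 ≤ K
  · rw [if_pos h]
    constructor
    · intro h3
      refine ⟨fun k _ h4 => ?_, fun h4 => by omega⟩
      rw [← h4]; exact h3
    · rintro ⟨h3, _⟩
      exact h3 _ (List.mem_range.2 (by omega)) rfl
  · rw [if_neg h]
    constructor
    · intro h3
      exact ⟨fun k hk h4 => by have := List.mem_range.1 hk; omega, fun _ => h3.symm⟩
    · rintro ⟨_, h3⟩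
      exact (h3 (by omega)).symm

/-- being on the path -/
def OnP (K j : ℕ) : Prop := j = nod (pth K) (len j)

theorem pi_onP (K : ℕ) : Pi0 (K + 1) (OnP K) := by
  have h1 : Pi0 (K + 1) fun j : ℕ => ∀ i < len j, pth K i = dig j i :=
    Pi0.ball (P := fun p : ℕ × ℕ => pth K p.2 = dig p.1 p.2)
      (Pi0.comp (pi_pth K) (f := fun p : ℕ × ℕ => (p.2, dig p.1 p.2))
        (c_pair (c_snd c_id) (c_dig (c_fst c_id) (c_snd c_id)))) (c_lenj c_id)
  refine Pi0.of_iff h1 fun j => ?_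
  constructor
  · intro h i hi
    rw [h, len_nod] at *
    exact (dig_nod (pth K) hi).symm
  · intro h
    exact nod_ext fun i hi => (h i hi).symm

/-- the path is not `Σ⁰_{K+1}` -/
theorem not_sigma_onP (K : ℕ) : ¬ Sigma0 (K + 1) (OnP K) := by
  intro h
  have h1 : Sigma0 (K + 1) fun x : ℕ => ∃ j : ℕ, OnP K j ∧
      (Nat.pair K (Nat.pair x x) < len j ∧ dig j (Nat.pair K (Nat.pair x x)) = 0) := by
    refine Sigma0.ex (P := fun p : ℕ × ℕ => OnP K p.2 ∧
      (Nat.pair K (Nat.pair p.1 p.1) < len p.2 ∧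
        dig p.2 (Nat.pair K (Nat.pair p.1 p.1)) = 0)) ?_
    have hp : Computable fun p : ℕ × ℕ => Nat.pair K (Nat.pair p.1 p.1) :=
      c_npair (c_const K) (c_npair (c_fst c_id) (c_fst c_id))
    exact Sigma0.and (h.comp (c_snd c_id)) (ComputablePred.sigma
      (p_and (p_lt hp (c_lenj (c_snd c_id))) (p_eq (c_dig (c_snd c_id) hp) (c_const 0))))
  have h2 : Sigma0 (K + 1) fun x : ℕ => ¬ Un K (x, x) := by
    refine h1.of_iff fun x => ?_
    rw [← fk_un, not_not, ← pth_pair (le_refl K)]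
    constructor
    · intro h3
      refine ⟨nod (pth K) (Nat.pair K (Nat.pair x x) + 1), ?_, ?_, ?_⟩
      · unfold OnP; rw [len_nod]
      · rw [len_nod]; omega
      · rw [dig_nod (pth K) (by omega), h3]
    · rintro ⟨j, h3, h4, h5⟩
      unfold OnP at h3
      rw [h3, dig_nod (pth K) h4] at h5
      exact h5
  obtain ⟨e, he⟩ := Un_universal K h2
  have := he e
  tauto

end Pool.Agent.Helper941.Dim
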